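import Mathlib
import Pool.Agent.R343.LT5

set_option autoImplicit false

/-!
# The Lang-Waldschmidt inequality for products of powers of integers with compressible digits

A word of letters is cut into `z` phrases (`LZ a N z`, Lempel and Ziv) if each phrase is a single
letter, or a (possibly empty) copy of a block that begins further to the left; the block may
overlap the phrase. For instance the word `u v ^ m w` has a number of phrases which does not depend
on `m`.

1. Let `b ≥ 2`, `z`, `k`, `E` and `ε > 0` be given. There is `C > 0` such that for all nonzero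
   integers `a_1, …, a_k` whose digits in base `b` (from the first to the last one) form words with
   `z` phrases, and all integral exponents with `∑ |β_i| ≤ E` and `Λ = ∏ a_i ^ β_i ≠ 1`,

   `|Λ - 1| ≥ 1 / (C |a_1 ⋯ a_k| ^ (1 + ε))`,

   the conjectured dependence on the `a_i`. There is no restriction on the lengths of the phrases
   and of their periods.

2. The same for values of words with `z` phrases and integral letters of absolute value at most `B`,
   of length `N`, `N log b ≤ M (1 + log |a_1 ⋯ a_k|)`.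

The proof: if no period of a phrase has a size between `δ' N` and `δ N`, then a product `D` of
numbers `b ^ π - 1` with `log D` at most a small multiple of `N` makes all `D a_i` sums of boundedly
many powers of `b` with small coefficients; the inequality for sparse integers (SparseProducts),
whose constant is polynomial in the coefficients, applies to the `D a_i` and `D`, and one of finitely
many scales works.
-/

namespace Pool.Agent.Results.MP_4eb8d9_nt.LempelZivProducts

open Finset Pool.Agent.R343.LP Pool.Agent.R343.LT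

theorem digits (b z k E : ℕ) (hb : 2 ≤ b) (hE : 1 ≤ E) (ε : ℝ) (hε : 0 < ε) :
    ∃ C : ℝ, 0 < C ∧ ∀ a : Fin k → ℤ, (∀ i, a i ≠ 0) → (∀ i, LZDown b z (a i)) →
      ∀ β : Fin k → ℤ, ∑ i, (β i).natAbs ≤ E → ∏ i, (a i : ℝ) ^ (β i) ≠ 1 →
      1 / (C * (∏ i, |(a i : ℝ)|) ^ (1 + ε)) ≤ |∏ i, (a i : ℝ) ^ (β i) - 1| := by
  have hlb : 0 ≤ Real.log b := Real.log_nonneg (by
    have : 1 ≤ b := by omega
    exact_mod_cast this)
  obtain ⟨C, hC0, hC⟩ := lwLZ b hb z k E hE b (Int.natCast_nonneg _) (1 + Real.log b) ε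
    (by positivity) hε
  refine ⟨C, hC0, fun a ha hLZ β hβ hne => hC a ha (fun i => (hLZ i).toInt hb ?_) β hβ hne⟩
  have h1 : ∀ i, (1 : ℝ) ≤ |(a i : ℝ)| := fun i => by
    have : 1 ≤ |a i| := Int.one_le_abs (ha i)
    exact_mod_cast this
  have h2 : ∀ s : Finset (Fin k), (1 : ℝ) ≤ ∏ i ∈ s, |(a i : ℝ)| := fun s =>
    Finset.prod_induction _ (fun x : ℝ => 1 ≤ x) (fun x y hx hy => by nlinarith) le_rfl
      fun i _ => h1 i
  have h3 : |(a i : ℝ)| ≤ ∏ i, |(a i : ℝ)| := by
    rw [← Finset.prod_erase_mul _ _ (Finset.mem_univ i)]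
    have h4 := h2 (Finset.univ.erase i)
    have h5 := h1 i
    nlinarith
  have h4 := places_le hb (a i)
  rw [max_eq_right (h1 i)] at h4
  have h5 := Real.log_le_log (by linarith [h1 i]) h3
  have h6 : 0 ≤ Real.log (∏ i, |(a i : ℝ)|) := Real.log_nonneg (h2 _)
  nlinarith [mul_nonneg hlb h6]

/-- The result: (1) digits, (2) words of integral letters. -/
theorem result :
    (∀ b z k E : ℕ, 2 ≤ b → 1 ≤ E → ∀ ε : ℝ, 0 < ε →
      ∃ C : ℝ, 0 < C ∧ ∀ a : Fin k → ℤ, (∀ i, a i ≠ 0) → (∀ i, LZDown b z (a i)) →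
        ∀ β : Fin k → ℤ, ∑ i, (β i).natAbs ≤ E → ∏ i, (a i : ℝ) ^ (β i) ≠ 1 →
        1 / (C * (∏ i, |(a i : ℝ)|) ^ (1 + ε)) ≤ |∏ i, (a i : ℝ) ^ (β i) - 1|) ∧
    (∀ b z k E : ℕ, 2 ≤ b → 1 ≤ E → ∀ B : ℤ, 0 ≤ B → ∀ M ε : ℝ, 0 ≤ M → 0 < ε →
      ∃ C : ℝ, 0 < C ∧ ∀ a : Fin k → ℤ, (∀ i, a i ≠ 0) →
        (∀ i, LZInt b z B (M * (1 + Real.log (∏ i, |(a i : ℝ)|))) (a i)) →
        ∀ β : Fin k → ℤ, ∑ i, (β i).natAbs ≤ E → ∏ i, (a i : ℝ) ^ (β i) ≠ 1 →
        1 / (C * (∏ i, |(a i : ℝ)|) ^ (1 + ε)) ≤ |∏ i, (a i : ℝ) ^ (β i) - 1|) :=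
  ⟨fun b z k E hb hE ε hε => digits b z k E hb hE ε hε,
    fun b z k E hb hE B hB M ε hM hε => lwLZ b hb z k E hE B hB M ε hM hε⟩

end Pool.Agent.Results.MP_4eb8d9_nt.LempelZivProducts
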