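import Pool.Agent.Results.MP_4eb8d9_nt.FewExceptions
import Pool.Agent.R479.DA.Lim
import Pool.Agent.R909.RandSets

/-!
# The Lang-Waldschmidt inequality for products whose numerator and denominator are in a random set

Let `A` be a random set of positive integers. The inequality in question is
`|Λ - 1| ≥ max |b_i| / (|b_1| ⋯ |b_m| |a_1| ⋯ |a_m|) ^ (1 + η)` for `Λ = a_1 ^ b_1 ⋯ a_m ^ b_m ≠ 1`,
with nonzero integers `a_i`, `b_i`, and all `m` and `η ≥ 0`.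

(1) Let two different integers `k`, `l` belong to `A` with probability at most `C (k l) ^ (-γ)`, for
instance because they are chosen independently with probabilities `O (k ^ (-γ))`. If `γ > 1 / 4`, then
almost surely the inequality holds for all but finitely many of the rational numbers `Λ ≠ 1` with
numerator (up to the sign) and denominator in `A`, in all representations. If `1 / 2 + η < 2 γ`, the
probability that it fails for such a number of height at least `y` is at most `B y ^ (-η)`.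

(2) Let `k` belong to `A` with probability at most `C k ^ (-γ)`, without any condition on pairs. The
same holds with `γ` instead of `2 γ`, for the rational numbers with numerator or denominator in `A`.

Proof. By the starting result `FewExceptions` there are `O (X ^ (1 / 2 + ε))` exceptions of height at
most `X`. They satisfy `|Λ - 1| < 1 / 2`, so numerator and denominator are both large, and different.
Then the lemma of Borel and Cantelli for random sets of helper909 (`Pool.Agent.R909.RandSets`) applies.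
-/

set_option autoImplicit false

namespace Pool.Agent.Results.MP_4eb8d9_nt.RandomSets

open Finset Filter MeasureTheory

/-- the height of a rational number -/
def ht (L : ℚ) : ℕ := max L.num.natAbs L.den

/-- The inequality of Lang and Waldschmidt holds for `L`, with constant `1` and every exponent `1 + η`, `η ≥ 0`, in every
representation `L = a₁ ^ b₁ ⋯ aₘ ^ bₘ` by nonzero integers: `|L - 1| ≥ B / (|b₁| ⋯ |bₘ| |a₁| ⋯ |aₘ|) ^ (1 + η)`,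
`B = max |bᵢ|`. -/
def Holds (L : ℚ) : Prop :=
  ∀ (η : ℝ) (m : ℕ) (a b : Fin m → ℤ), 0 ≤ η → (∀ i, a i ≠ 0) → (∀ i, b i ≠ 0) →
    ∏ i, ((a i : ℚ) ^ (b i)) = L →
    ((univ.sup fun i => (b i).natAbs : ℕ) : ℝ) /
      ((∏ i, |((b i : ℤ) : ℝ)|) * (∏ i, |((a i : ℤ) : ℝ)|)) ^ (1 + η) ≤ |(L : ℝ) - 1|

/-- each `k` belongs to the random set `A` with probability at most `C * k ^ (-γ)` -/
def Sparse {Ω : Type} [MeasurableSpace Ω] (P : Measure Ω) (A : Ω → Set ℕ) (γ C : ℝ) : Prop :=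
  ∀ k : ℕ, 0 < k → P {ω | k ∈ A ω} ≤ ENNReal.ofReal (C * (k : ℝ) ^ (-γ))

/-- two different integers `k`, `l` belong to the random set `A` with probability at most
`C * (k * l) ^ (-γ)` -/
def PairSparse {Ω : Type} [MeasurableSpace Ω] (P : Measure Ω) (A : Ω → Set ℕ) (γ C : ℝ) : Prop :=
  ∀ k l : ℕ, 0 < k → 0 < l → k ≠ l →
    P {ω | k ∈ A ω ∧ l ∈ A ω} ≤ ENNReal.ofReal (C * ((k : ℝ) * l) ^ (-γ))

/-- the count of the exceptions; the proof is that of `StarshapedHeights` (helper482) -/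
lemma count (ε : ℝ) (hε : 0 < ε) : ∃ C : ℝ, ∀ X : ℝ, 1 ≤ X →
    {L | L ∈ {L : ℚ | L ≠ 1 ∧ ¬ Holds L} ∧ ((ht L : ℕ) : ℝ) ≤ X}.Finite ∧
      ({L | L ∈ {L : ℚ | L ≠ 1 ∧ ¬ Holds L} ∧ ((ht L : ℕ) : ℝ) ≤ X}.ncard : ℝ) ≤ C * X ^ (1 / 2 + ε) := by
  obtain ⟨C, hC⟩ := FewExceptions.result ε hε
  refine ⟨|C|, fun X hX => ?_⟩
  have hX0 : 0 < X := by linarith
  have hX1 : 1 ≤ ⌊X⌋₊ := Nat.le_floor (by exact_mod_cast hX)
  obtain ⟨h1, h2⟩ := hC ⌊X⌋₊ hX1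
  have hsub : {L | L ∈ {L : ℚ | L ≠ 1 ∧ ¬ Holds L} ∧ ((ht L : ℕ) : ℝ) ≤ X} ⊆ FewExceptions.Exceptional ⌊X⌋₊ := by
    rintro L ⟨⟨h3, h4⟩, h5⟩
    have h6 : ht L ≤ ⌊X⌋₊ := Nat.le_floor h5
    unfold ht at h6
    refine ⟨h3, (le_max_left _ _).trans h6, (le_max_right _ _).trans h6, ?_⟩
    unfold Holds at h4
    push Not at h4
    obtain ⟨η, m, a, b, g1, g2, g3, g4, g5⟩ := h4
    exact ⟨η, m, a, b, g1, g2, g3, g4, g5⟩
  refine ⟨h1.subset hsub, ?_⟩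
  have h3 : ((⌊X⌋₊ : ℕ) : ℝ) ^ (1 / 2 + ε) ≤ X ^ (1 / 2 + ε) :=
    Real.rpow_le_rpow (Nat.cast_nonneg _) (Nat.floor_le hX0.le) (by positivity)
  calc ({L | L ∈ {L : ℚ | L ≠ 1 ∧ ¬ Holds L} ∧ ((ht L : ℕ) : ℝ) ≤ X}.ncard : ℝ)
      ≤ ((FewExceptions.Exceptional ⌊X⌋₊).ncard : ℝ) := by exact_mod_cast Set.ncard_le_ncard hsub h1
    _ ≤ C * ((⌊X⌋₊ : ℕ) : ℝ) ^ (1 / 2 + ε) := h2
    _ ≤ |C| * ((⌊X⌋₊ : ℕ) : ℝ) ^ (1 / 2 + ε) := mul_le_mul_of_nonneg_right (le_abs_self C) (by positivity)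
    _ ≤ |C| * X ^ (1 / 2 + ε) := mul_le_mul_of_nonneg_left h3 (abs_nonneg C)

/-- the exceptions are near `1` -/
lemma near {L : ℚ} (h1 : L ≠ 1) (h : ¬ Holds L) : |(L : ℝ) - 1| < 1 / 2 := by
  unfold Holds at h
  push Not at h
  obtain ⟨η, m, a, b, hη, ha, hb, hL, hlt⟩ := h
  obtain ⟨NB, hNB⟩ : ∃ N : ℕ, N = ∏ i, (b i).natAbs := ⟨_, rfl⟩
  obtain ⟨NA, hNA⟩ : ∃ N : ℕ, N = ∏ i, (a i).natAbs := ⟨_, rfl⟩
  have e1 : ∏ i, |((b i : ℤ) : ℝ)| = (NB : ℝ) := by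
    rw [hNB, Nat.cast_prod]
    exact prod_congr rfl fun i _ => by rw [Nat.cast_natAbs, Int.cast_abs]
  have e2 : ∏ i, |((a i : ℤ) : ℝ)| = (NA : ℝ) := by
    rw [hNA, Nat.cast_prod]
    exact prod_congr rfl fun i _ => by rw [Nat.cast_natAbs, Int.cast_abs]
  have hNB0 : 0 < NB := by
    rw [hNB]
    exact prod_pos fun i _ => Int.natAbs_pos.2 (hb i)
  have hNA0 : 0 < NA := by
    rw [hNA]
    exact prod_pos fun i _ => Int.natAbs_pos.2 (ha i)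
  have hB : (univ.sup fun i => (b i).natAbs) ≤ NB := by
    refine Finset.sup_le fun i _ => ?_
    refine Nat.le_of_dvd hNB0 ?_
    rw [hNB]
    exact dvd_prod_of_mem (fun i => (b i).natAbs) (mem_univ i)
  rw [e1, e2] at hlt
  have hB' : ((univ.sup fun i => (b i).natAbs : ℕ) : ℝ) ≤ NB := by exact_mod_cast hB
  have hNB1 : (1 : ℝ) ≤ NB := by exact_mod_cast hNB0
  have hNA1 : (1 : ℝ) ≤ NA := by exact_mod_cast hNA0
  have hpow : (NB : ℝ) * NA ≤ ((NB : ℝ) * NA) ^ (1 + η) := by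
    have h2 : (1 : ℝ) ≤ (NB : ℝ) * NA := one_le_mul_of_one_le_of_one_le hNB1 hNA1
    calc (NB : ℝ) * NA = ((NB : ℝ) * NA) ^ (1 : ℝ) := (Real.rpow_one _).symm
      _ ≤ _ := Real.rpow_le_rpow_of_exponent_le h2 (by linarith)
  have h3 : ((univ.sup fun i => (b i).natAbs : ℕ) : ℝ) / ((NB : ℝ) * NA) ^ (1 + η) ≤ 1 / NA := by
    rw [div_le_div_iff₀ (by positivity) (by positivity), one_mul]
    exact (mul_le_mul_of_nonneg_right hB' (by positivity)).trans hpow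
  have h4 : |(L : ℝ) - 1| < 1 / NA := lt_of_lt_of_le hlt h3
  rcases Nat.lt_or_ge 1 NA with h5 | h5
  · have h6 : (2 : ℝ) ≤ NA := by exact_mod_cast h5
    refine h4.trans_le ?_
    exact one_div_le_one_div_of_le (by norm_num) h6
  · exfalso
    have h6 : NA = 1 := by omega
    have h7 : ∀ i, |((a i : ℤ) : ℚ)| = 1 := by
      intro i
      have h8 : (a i).natAbs ∣ NA := by
        rw [hNA]
        exact dvd_prod_of_mem (fun i => (a i).natAbs) (mem_univ i)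
      rw [h6, Nat.dvd_one] at h8
      rw [← Int.cast_abs, Int.abs_eq_natAbs, h8]
      norm_num
    have h8 : |L| = 1 := by
      rw [← hL, Finset.abs_prod]
      refine prod_eq_one fun i _ => ?_
      rw [abs_zpow, h7, one_zpow]
    have h9 : L = -1 := by
      rcases (abs_eq (by norm_num : (0 : ℚ) ≤ 1)).1 h8 with h | h
      · exact absurd h h1
      · exact h
    rw [h9, h6] at h4
    norm_num at h4

/-- numerator and denominator are large and different -/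
lemma sizes {L : ℚ} (h1 : L ≠ 1) (h : ¬ Holds L) :
    ht L ≤ 2 * L.num.natAbs ∧ ht L ≤ 2 * L.den ∧ L.num.natAbs ≠ L.den := by
  have h2 := near h1 h
  have h2' : ((|L - 1| : ℚ) : ℝ) < ((1 / 2 : ℚ) : ℝ) := by
    have h2'' := h2
    push_cast at h2'' ⊢
    exact h2''
  have h3 : |L - 1| < 1 / 2 := Rat.cast_lt.1 h2'
  rw [abs_lt] at h3
  have hd : (0 : ℚ) < L.den := by exact_mod_cast L.den_pos
  have h4 : L * L.den = L.num := Rat.mul_den_eq_num L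
  have h5 : (L.den : ℚ) < 2 * L.num := by
    rw [← h4]
    nlinarith
  have h6 : 2 * (L.num : ℚ) < 3 * L.den := by
    rw [← h4]
    nlinarith
  have h5' : (L.den : ℤ) < 2 * L.num := by exact_mod_cast h5
  have h6' : 2 * L.num < 3 * (L.den : ℤ) := by exact_mod_cast h6
  have hd' := L.den_pos
  have h7 : ((L.num.natAbs : ℕ) : ℤ) = L.num := by
    rw [Int.natCast_natAbs, abs_of_pos (by omega)]
  refine ⟨?_, ?_, ?_⟩
  · unfold ht
    refine max_le (by omega) (by omega)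
  · unfold ht
    refine max_le (by omega) (by omega)
  · intro h8
    apply h1
    have h9 : L.num = L.den := by rw [← h7, h8]
    rw [← Rat.num_div_den L, h9]
    exact div_self (by exact_mod_cast hd'.ne')

lemma one_le_ht (L : ℚ) : (1 : ℝ) ≤ ((ht L : ℕ) : ℝ) := by
  have : 1 ≤ ht L := L.den_pos.trans_le (le_max_right _ _)
  exact_mod_cast this

lemma summable_bad {p : ℝ} (hp : 1 / 2 < p) :
    Summable fun L : {L : ℚ // L ≠ 1 ∧ ¬ Holds L} => ((ht L.1 : ℕ) : ℝ) ^ (-p) := by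
  obtain ⟨s, hs1, hs2⟩ := exists_between hp
  obtain ⟨K, hK⟩ := count (s - 1 / 2) (by linarith)
  refine Pool.Agent.R479.DA.summable_heights
    (fun L : {L : ℚ // L ≠ 1 ∧ ¬ Holds L} => ((ht L.1 : ℕ) : ℝ)) (fun L => one_le_ht L.1)
    (s := s) (p := p) (C := K) hs2 (by linarith) ?_
  intro X hX
  obtain ⟨h1, h2⟩ := hK X hX
  have hmaps : Set.MapsTo (Subtype.val : {L : ℚ // L ≠ 1 ∧ ¬ Holds L} → ℚ)
      {L | ((ht L.1 : ℕ) : ℝ) ≤ X}
      {L | L ∈ {L : ℚ | L ≠ 1 ∧ ¬ Holds L} ∧ ((ht L : ℕ) : ℝ) ≤ X} := fun L hL => ⟨L.2, hL⟩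
  have hinj : Set.InjOn (Subtype.val : {L : ℚ // L ≠ 1 ∧ ¬ Holds L} → ℚ)
      {L | ((ht L.1 : ℕ) : ℝ) ≤ X} := Subtype.val_injective.injOn
  refine ⟨h1.of_injOn hmaps hinj, ?_⟩
  have h3 := Set.ncard_le_ncard_of_injOn _ hmaps hinj h1
  have e : (1 / 2 : ℝ) + (s - 1 / 2) = s := by ring
  rw [e] at h2
  exact le_trans (by exact_mod_cast h3) h2

theorem result (Ω : Type) [MeasurableSpace Ω] (P : Measure Ω) (A : Ω → Set ℕ) (γ C : ℝ) :
    (PairSparse P A γ C →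
      (1 / 4 < γ → ∀ᵐ ω ∂P, {L : ℚ | L ≠ 1 ∧ (L.num.natAbs ∈ A ω ∧ L.den ∈ A ω) ∧
        ¬ Holds L}.Finite) ∧
      ∀ η : ℝ, 0 ≤ η → 1 / 2 + η < 2 * γ → ∃ B : ℝ, ∀ y : ℝ, 1 ≤ y →
        P {ω | ∃ L : ℚ, L ≠ 1 ∧ y ≤ ht L ∧ (L.num.natAbs ∈ A ω ∧ L.den ∈ A ω) ∧
          ¬ Holds L} ≤ ENNReal.ofReal (B * y ^ (-η))) ∧
    (Sparse P A γ C →
      (1 / 2 < γ → ∀ᵐ ω ∂P, {L : ℚ | L ≠ 1 ∧ (L.num.natAbs ∈ A ω ∨ L.den ∈ A ω) ∧
        ¬ Holds L}.Finite) ∧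
      ∀ η : ℝ, 0 ≤ η → 1 / 2 + η < γ → ∃ B : ℝ, ∀ y : ℝ, 1 ≤ y →
        P {ω | ∃ L : ℚ, L ≠ 1 ∧ y ≤ ht L ∧ (L.num.natAbs ∈ A ω ∨ L.den ∈ A ω) ∧
          ¬ Holds L} ≤ ENNReal.ofReal (B * y ^ (-η))) := by
  have h1 : ∀ L : ℚ, (L ≠ 1 ∧ ¬ Holds L) → (1 : ℝ) ≤ ((ht L : ℕ) : ℝ) := fun L _ => one_le_ht L
  have hu : ∀ L : ℚ, (L ≠ 1 ∧ ¬ Holds L) →
      ((ht L : ℕ) : ℝ) ≤ 2 * ((L.num.natAbs : ℕ) : ℝ) := by
    intro L hL
    exact_mod_cast (sizes hL.1 hL.2).1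
  have hv : ∀ L : ℚ, (L ≠ 1 ∧ ¬ Holds L) → ((ht L : ℕ) : ℝ) ≤ 2 * ((L.den : ℕ) : ℝ) := by
    intro L hL
    exact_mod_cast (sizes hL.1 hL.2).2.1
  constructor
  · intro hA
    have hA' : Pool.Agent.R909.RS.PairSparse P (fun m : ℕ => (m : ℝ)) A γ C := by
      intro a b ha hb hab
      exact hA a b (Nat.cast_pos.1 ha) (Nat.cast_pos.1 hb) hab
    have key : ∀ η : ℝ, 0 ≤ η → 1 / 2 + η < 2 * γ →
        (∀ᵐ ω ∂P, {L : ℚ | (L ≠ 1 ∧ ¬ Holds L) ∧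
          (L.num.natAbs ∈ A ω ∧ L.den ∈ A ω)}.Finite) ∧ ∃ B : ℝ, ∀ y : ℝ, 1 ≤ y →
        P {ω | ∃ L : ℚ, (L ≠ 1 ∧ ¬ Holds L) ∧ y ≤ ((ht L : ℕ) : ℝ) ∧
          (L.num.natAbs ∈ A ω ∧ L.den ∈ A ω)} ≤ ENNReal.ofReal (B * y ^ (-η)) :=
      fun η hη h => Pool.Agent.R909.RS.pair (T := ℚ) (H := fun L => ((ht L : ℕ) : ℝ)) hA'
        (Q := fun L => L ≠ 1 ∧ ¬ Holds L) h1
        (u := fun L => L.num.natAbs) (v := fun L => L.den) (K := 2) (by norm_num) hu hv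
        (fun L hL => (sizes hL.1 hL.2).2.2)
        (by linarith) (p := 2 * γ - η) hη (by linarith) (summable_bad (by linarith))
    refine ⟨fun h => ?_, fun η hη h => ?_⟩
    · filter_upwards [(key 0 le_rfl (by linarith)).1] with ω hω
      refine hω.subset ?_
      rintro L ⟨h2, h3, h4⟩
      exact ⟨⟨h2, h4⟩, h3⟩
    · obtain ⟨B, hB⟩ := (key η hη h).2
      refine ⟨B, fun y hy => (measure_mono ?_).trans (hB y hy)⟩
      rintro ω ⟨L, h2, h3, h4, h5⟩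
      exact ⟨L, ⟨h2, h5⟩, h3, h4⟩
  · intro hA
    have hA' : Pool.Agent.R909.RS.Sparse P (fun m : ℕ => (m : ℝ)) A γ C := by
      intro m hm
      exact hA m (Nat.cast_pos.1 hm)
    have key : ∀ η : ℝ, 0 ≤ η → 1 / 2 + η < γ → ∀ u : ℚ → ℕ,
        (∀ L, (L ≠ 1 ∧ ¬ Holds L) → ((ht L : ℕ) : ℝ) ≤ 2 * ((u L : ℕ) : ℝ)) →
        (∀ᵐ ω ∂P, {L : ℚ | (L ≠ 1 ∧ ¬ Holds L) ∧ u L ∈ A ω}.Finite) ∧
        ∃ B : ℝ, ∀ y : ℝ, 1 ≤ y →
        P {ω | ∃ L : ℚ, (L ≠ 1 ∧ ¬ Holds L) ∧ y ≤ ((ht L : ℕ) : ℝ) ∧ u L ∈ A ω} ≤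
          ENNReal.ofReal (B * y ^ (-η)) :=
      fun η hη h u hu => Pool.Agent.R909.RS.single (T := ℚ) (H := fun L => ((ht L : ℕ) : ℝ)) hA'
        (Q := fun L => L ≠ 1 ∧ ¬ Holds L) h1
        (u := u) (K := 2) (by norm_num) hu (by linarith) (p := γ - η) hη (by linarith)
        (summable_bad (by linarith))
    refine ⟨fun h => ?_, fun η hη h => ?_⟩
    · filter_upwards [(key 0 le_rfl (by linarith) _ hu).1, (key 0 le_rfl (by linarith) _ hv).1]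
        with ω h2 h3
      refine (h2.union h3).subset ?_
      rintro L ⟨h4, h5 | h5, h6⟩
      · exact Or.inl ⟨⟨h4, h6⟩, h5⟩
      · exact Or.inr ⟨⟨h4, h6⟩, h5⟩
    · obtain ⟨B, hB⟩ := (key η hη h _ hu).2
      obtain ⟨B', hB'⟩ := (key η hη h _ hv).2
      refine ⟨|B| + |B'|, fun y hy => ?_⟩
      have hy0 : 0 ≤ y ^ (-η) := Real.rpow_nonneg (by linarith) _
      have h6 : {ω | ∃ L : ℚ, L ≠ 1 ∧ y ≤ ht L ∧ (L.num.natAbs ∈ A ω ∨ L.den ∈ A ω) ∧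
          ¬ Holds L} ⊆
          {ω | ∃ L : ℚ, (L ≠ 1 ∧ ¬ Holds L) ∧ y ≤ ((ht L : ℕ) : ℝ) ∧ L.num.natAbs ∈ A ω} ∪
          {ω | ∃ L : ℚ, (L ≠ 1 ∧ ¬ Holds L) ∧ y ≤ ((ht L : ℕ) : ℝ) ∧ L.den ∈ A ω} := by
        rintro ω ⟨L, h2, h3, h4 | h4, h5⟩
        · exact Or.inl ⟨L, ⟨h2, h5⟩, h3, h4⟩
        · exact Or.inr ⟨L, ⟨h2, h5⟩, h3, h4⟩
      refine (measure_mono h6).trans ((measure_union_le _ _).trans ?_)
      refine (add_le_add (hB y hy) (hB' y hy)).trans ?_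
      have h7 : ENNReal.ofReal (B * y ^ (-η)) ≤ ENNReal.ofReal (|B| * y ^ (-η)) :=
        ENNReal.ofReal_le_ofReal (mul_le_mul_of_nonneg_right (le_abs_self B) hy0)
      have h8 : ENNReal.ofReal (B' * y ^ (-η)) ≤ ENNReal.ofReal (|B'| * y ^ (-η)) :=
        ENNReal.ofReal_le_ofReal (mul_le_mul_of_nonneg_right (le_abs_self B') hy0)
      refine (add_le_add h7 h8).trans (le_of_eq ?_)
      rw [← ENNReal.ofReal_add (by positivity) (by positivity), add_mul]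

end Pool.Agent.Results.MP_4eb8d9_nt.RandomSets
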