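import Pool.Agent.Results.MP_4eb8d9_nt.FewExceptions
import Pool.Agent.R482.ST.Star

/-!
# The Lang-Waldschmidt inequality for all products with height near powers, orbits and other sequences

Let `f_n`, `n = 0, 1, 2, …`, be positive functions on `(a, ∞)`, `a ≥ 0`, such that `f_n(t) / t` is nondecreasing, and such
that the sequence `f_n(t)` has exponent of convergence at most `τ` for each `t > a`: for instance `f_n(t) = t ^ (v_n)` for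
exponents `v_n ≥ 1` (`τ = 0`; all powers, the powers `t ^ (3 ^ n)` of Mills, …), the orbits `f_n(t) = g (g (⋯ g (t)))` of any
map `g` with `g(t) > t` and `g(t) / t` nondecreasing (`τ = 0`; for instance of `t² + c`), and `f_n(t) = v_n t`.
Let `θ < 1`. For all `α > a` outside a set of Hausdorff dimension at most `(1 / 2 + τ) / (1 - θ)`, each `c` and all but
finitely many `n`, for EVERY product `Λ = a₁ ^ b₁ ⋯ aₘ ^ bₘ ≠ 1` of powers of nonzero integers (`m` arbitrary) with height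
`H`, `|H - f_n(α)| ≤ c f_n(α) ^ θ`, and every `η ≥ 0` one has
`|Λ - 1| ≥ max |bᵢ| / (|b₁| ⋯ |bₘ| |a₁| ⋯ |aₘ|) ^ (1 + η)`.
-/

set_option autoImplicit false

namespace Pool.Agent.Results.MP_4eb8d9_nt.StarshapedHeights

open Finset

/-- the height of a rational number -/
def ht (L : ℚ) : ℕ := max L.num.natAbs L.den

/-- The inequality of Lang and Waldschmidt holds for `L`, with constant `1` and every exponent `1 + η`, `η ≥ 0`, in every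
representation `L = a₁ ^ b₁ ⋯ aₘ ^ bₘ` by nonzero integers: `|L - 1| ≥ B / (|b₁| ⋯ |bₘ| |a₁| ⋯ |aₘ|) ^ (1 + η)`,
`B = max |bᵢ|`. -/
def Holds (L : ℚ) : Prop :=
  ∀ (η : ℝ) (m : ℕ) (a b : Fin m → ℤ), 0 ≤ η → (∀ i, a i ≠ 0) → (∀ i, b i ≠ 0) →
    ∏ i, ((a i : ℚ) ^ (b i)) = L →
    ((univ.sup fun i => (b i).natAbs : ℕ) : ℝ) /
      ((∏ i, |((b i : ℤ) : ℝ)|) * (∏ i, |((a i : ℤ) : ℝ)|)) ^ (1 + η) ≤ |(L : ℝ) - 1|

/-- the functions `f n` are positive on `(a, ∞)`, `a ≥ 0`, and `f n x / x` is nondecreasing there -/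
def Starshaped (a : ℝ) (f : ℕ → ℝ → ℝ) : Prop :=
  0 ≤ a ∧ ∀ n : ℕ, ∀ x y : ℝ, a < x → x ≤ y → 0 < f n x ∧ f n x / x ≤ f n y / y

/-- for each `x > a` the exponent of convergence of the sequence `f n x` is at most `τ` -/
def ExpLe (a : ℝ) (f : ℕ → ℝ → ℝ) (τ : ℝ) : Prop :=
  ∀ x : ℝ, a < x → ∀ t : ℝ, τ < t → Summable (fun n : ℕ => (f n x) ^ (-t))

lemma count (ε : ℝ) (hε : 0 < ε) : ∃ C : ℝ, ∀ X : ℝ, 1 ≤ X →
    {L | L ∈ {L : ℚ | L ≠ 1 ∧ ¬ Holds L} ∧ ((ht L : ℕ) : ℝ) ≤ X}.Finite ∧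
      ({L | L ∈ {L : ℚ | L ≠ 1 ∧ ¬ Holds L} ∧ ((ht L : ℕ) : ℝ) ≤ X}.ncard : ℝ) ≤ C * X ^ (1 / 2 + ε) := by
  obtain ⟨C, hC⟩ := FewExceptions.result ε hε
  refine ⟨|C|, fun X hX => ?_⟩
  have hX0 : 0 < X := by linarith
  have hX1 : 1 ≤ ⌊X⌋₊ := Nat.le_floor (by exact_mod_cast hX)
  obtain ⟨h1, h2⟩ := hC ⌊X⌋₊ hX1
  have hsub : {L | L ∈ {L : ℚ | L ≠ 1 ∧ ¬ Holds L} ∧ ((ht L : ℕ) : ℝ) ≤ X} ⊆ FewExceptions.Exceptional ⌊X⌋₊ := by
    rintro L ⟨⟨h3, h4⟩, h5⟩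
    have h6 : ht L ≤ ⌊X⌋₊ := Nat.le_floor h5
    unfold ht at h6
    refine ⟨h3, (le_max_left _ _).trans h6, (le_max_right _ _).trans h6, ?_⟩
    unfold Holds at h4
    push Not at h4
    obtain ⟨η, m, a, b, g1, g2, g3, g4, g5⟩ := h4
    exact ⟨η, m, a, b, g1, g2, g3, g4, g5⟩
  refine ⟨h1.subset hsub, ?_⟩
  have h3 : ((⌊X⌋₊ : ℕ) : ℝ) ^ (1 / 2 + ε) ≤ X ^ (1 / 2 + ε) :=
    Real.rpow_le_rpow (Nat.cast_nonneg _) (Nat.floor_le hX0.le) (by positivity)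
  calc ({L | L ∈ {L : ℚ | L ≠ 1 ∧ ¬ Holds L} ∧ ((ht L : ℕ) : ℝ) ≤ X}.ncard : ℝ)
      ≤ ((FewExceptions.Exceptional ⌊X⌋₊).ncard : ℝ) := by exact_mod_cast Set.ncard_le_ncard hsub h1
    _ ≤ C * ((⌊X⌋₊ : ℕ) : ℝ) ^ (1 / 2 + ε) := h2
    _ ≤ |C| * ((⌊X⌋₊ : ℕ) : ℝ) ^ (1 / 2 + ε) := mul_le_mul_of_nonneg_right (le_abs_self C) (by positivity)
    _ ≤ |C| * X ^ (1 / 2 + ε) := mul_le_mul_of_nonneg_left h3 (abs_nonneg C)

/-- **Theorem.** Let `f` be starshaped functions on `(a, ∞)` of exponent of convergence at most `τ ≥ 0` and `θ < 1`. There is a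
set `E` of Hausdorff dimension at most `(1 / 2 + τ) / (1 - θ)` such that for each `α > a` outside `E`, each `c` and all but
finitely many `n` the inequality of Lang and Waldschmidt holds, with constant `1`, for ALL rational numbers `L ≠ 1` whose
height satisfies `|H(L) - f_n(α)| ≤ c f_n(α) ^ θ`, in all representations. The functions `v_n x`, `v_n > 0`, are starshaped on `(0, ∞)`, of exponent `τ` if `v` has exponent of convergence at most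
`τ`; the functions `x ^ (v_n)`, `v_n ≥ 1`, are starshaped on `(1, ∞)`, of exponent `0` if the sums of `exp (-t v_n)` converge
for `t > 0`; and the iterates of a map `g` with `g(x) > x` for `x > a` and `g(x) / x` nondecreasing are starshaped on
`(a, ∞)`, of exponent `0`. -/
theorem result :
    (∀ (a : ℝ) (f : ℕ → ℝ → ℝ) (τ θ : ℝ), Starshaped a f → 0 ≤ τ → ExpLe a f τ → θ < 1 →
      ∃ E : Set ℝ, dimH E ≤ ENNReal.ofReal ((1 / 2 + τ) / (1 - θ)) ∧ ∀ α : ℝ, a < α → α ∉ E → ∀ c : ℝ,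
        ∃ n₀ : ℕ, ∀ n : ℕ, n₀ ≤ n → ∀ L : ℚ, L ≠ 1 → |((ht L : ℕ) : ℝ) - f n α| ≤ c * (f n α) ^ θ → Holds L) ∧
    (∀ (v : ℕ → ℝ) (τ : ℝ), (∀ n, 0 < v n) → (∀ t : ℝ, τ < t → Summable (fun n : ℕ => (v n) ^ (-t))) →
      Starshaped 0 (fun n x => v n * x) ∧ ExpLe 0 (fun n x => v n * x) τ) ∧
    (∀ v : ℕ → ℝ, (∀ n, 1 ≤ v n) → (∀ t : ℝ, 0 < t → Summable fun n : ℕ => Real.exp (-(t * v n))) →
      Starshaped 1 (fun n x => x ^ (v n)) ∧ ExpLe 1 (fun n x => x ^ (v n)) 0) ∧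
    (∀ (a : ℝ) (g : ℝ → ℝ), 0 ≤ a → (∀ x y : ℝ, a < x → x ≤ y → g x / x ≤ g y / y) → (∀ x : ℝ, a < x → x < g x) →
      Starshaped a (fun n x => g^[n] x) ∧ ExpLe a (fun n x => g^[n] x) 0) := by
  refine ⟨fun a f τ θ hf hτ hE hθ1 => ?_, Pool.Agent.R482.ST.ex_mul, Pool.Agent.R482.ST.ex_pow,
    Pool.Agent.R482.ST.ex_orbit⟩
  obtain ⟨E, h2, h3⟩ := Pool.Agent.R482.ST.windows {L : ℚ | L ≠ 1 ∧ ¬ Holds L} (fun L : ℚ => ((ht L : ℕ) : ℝ))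
    hf hτ hE (s := 1 / 2) (by norm_num) hθ1 count
  refine ⟨E, h2, fun α hα hαE c => ?_⟩
  obtain ⟨n₀, hn⟩ := h3 α hα hαE c
  refine ⟨n₀, fun n hn1 L hL hw => ?_⟩
  by_contra hcon
  exact absurd (hn n hn1 L ⟨hL, hcon⟩) (not_lt.2 hw)

end Pool.Agent.Results.MP_4eb8d9_nt.StarshapedHeights
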